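import Pool.Agent.Lib.SAD.IsoMain

/-!
# MP_d36302_an : one Fourier coefficient decides equidistribution on an `SL(2, ℝ)`-orbit

For every translation surface `X` (given by a triangulation) the following are equivalent: the
holonomy angles of all surfaces `A X`, `A ∈ SL(2, ℝ)`, equidistribute (so Q1 holds for all of them);
for all `A` the mean of `cos 2θ = cos² θ - sin² θ` over the directions of the saddle connections of
`A X` of length at most `R` tends to zero; this mean tends to zero for all `A` in some nonempty
open subset of `SL(2, ℝ)`.
-/

open Filter Topology MeasureTheory Set SAD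
open scoped MatrixGroups

namespace Pool.Agent.Results.MP_d36302_an.SecondHarmonic

theorem result (X : SAD.TransSurf) :
    List.TFAE [
      ∀ A : SL(2, ℝ), Equi (X.push A).hol,
      ∀ A : SL(2, ℝ), Tendsto (fun R => dirSum (X.push A).hol (fun u => u.re ^ 2 - u.im ^ 2) R /
        N (X.push A).hol R) atTop (𝓝 0),
      ∃ U : Set SL(2, ℝ), IsOpen U ∧ U.Nonempty ∧ ∀ A ∈ U,
        Tendsto (fun R => dirSum (X.push A).hol (fun u => u.re ^ 2 - u.im ^ 2) R /
          N (X.push A).hol R) atTop (𝓝 0)] :=
  SAD.main_harm_open X

end Pool.Agent.Results.MP_d36302_an.SecondHarmonic
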